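import Pool.Agent.helper48.PR.SpecL

/-!
# Project pr, module LTR: a transvection and a commuting element
-/

set_option autoImplicit false

namespace Pool.Agent.PR

open Matrix

theorem LTR_rank {n : ℕ} {F : Type} [Field F] (x y A : Matrix (Fin n) (Fin n) F) (hxy : x * y = 1)
    (hA : A.rank = 1) : (y * A * x).rank = 1 := by
  have h1 : (y * A * x).rank ≤ A.rank :=
    (rank_mul_le_left _ _).trans (rank_mul_le_right _ _)
  have h2 : A = x * (y * A * x) * y := by
    have : x * (y * A * x) * y = (x * y) * A * (x * y) := by noncomm_ring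
    rw [this, hxy, one_mul, mul_one]
  have h3 : A.rank ≤ (y * A * x).rank := by
    calc A.rank = (x * (y * A * x) * y).rank := congrArg Matrix.rank h2
      _ ≤ (y * A * x).rank := (rank_mul_le_left _ _).trans (rank_mul_le_right _ _)
  omega

theorem LTR (hLEMB : LEMB_stmt) (hLRK1 : LRK1_stmt) (hLPD : LPD_stmt) : LTR_stmt := by
  intro n hn Λ _ hFG hQ hRF f hf p t u htu hpow hrank
  have h1 : qM (f p 1) = 1 := by
    unfold qM
    rw [map_one, Units.val_one]
    exact Matrix.map_one _ (map_zero _) (map_one _)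
  have hmem : qM (f p t) - 1 ∈ Submodule.span ℚ (Set.range fun l => qM (f p l)) := by
    apply Submodule.sub_mem
    · exact Submodule.subset_span ⟨t, rfl⟩
    · exact Submodule.subset_span ⟨1, h1⟩
  obtain ⟨R, x, y, hR, hxy, hyx, hρ, hdense⟩ := hLEMB n hn Λ hFG hQ hRF f hf p _ hmem hrank
  -- the element `z = R t`
  have hz : y * (qM (f p t) - 1) * x = stdM ℚ_[(p : ℕ)] (R t) - 1 := by
    rw [hρ t]
    have : y * (x * stdM ℚ_[(p : ℕ)] (R t) * y - 1) * x =
        (y * x) * stdM ℚ_[(p : ℕ)] (R t) * (y * x) - y * x := by noncomm_ring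
    rw [this, hyx, one_mul, mul_one]
  have hrk : (stdM ℚ_[(p : ℕ)] (R t) - 1).rank = 1 := by
    rw [← hz]
    exact LTR_rank x y _ hxy hrank
  have hmap : (((R t : SLZ n) : Matrix (Fin n) (Fin n) ℤ) - 1).map (Int.castRingHom ℚ_[(p : ℕ)]) =
      stdM ℚ_[(p : ℕ)] (R t) - 1 := by
    unfold stdM
    rw [Matrix.map_sub _ (map_sub _), Matrix.map_one _ (map_zero _) (map_one _)]
  obtain ⟨e, φ, heφ⟩ := hLRK1 n ℚ_[(p : ℕ)] (((R t : SLZ n) : Matrix (Fin n) (Fin n) ℤ) - 1)
    (by rw [hmap]; exact hrk)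
  have hze : ((R t : SLZ n) : Matrix (Fin n) (Fin n) ℤ) = 1 + vecMulVec e φ := by
    rw [← heφ]
    abel
  have hz1 : R t ≠ 1 := by
    intro h
    rw [h, stdM_one, sub_self, rank_zero] at hrk
    exact zero_ne_one hrk
  obtain ⟨he, hφ, h0, hzt⟩ := Pool.Agent.H48SL.tv_data hz1 hze
  -- commutation
  have hcomm : ((R u : SLZ n) : Matrix (Fin n) (Fin n) ℤ) * (1 + vecMulVec e φ) =
      (1 + vecMulVec e φ) * ((R u : SLZ n) : Matrix (Fin n) (Fin n) ℤ) := by
    rw [← hze, ← Matrix.SpecialLinearGroup.coe_mul, ← Matrix.SpecialLinearGroup.coe_mul,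
      ← map_mul, ← map_mul, htu]
  have hcomm2 : ((R u : SLZ n) : Matrix (Fin n) (Fin n) ℤ) * vecMulVec e φ =
      vecMulVec e φ * ((R u : SLZ n) : Matrix (Fin n) (Fin n) ℤ) := by
    rw [mul_add, add_mul, mul_one, one_mul] at hcomm
    exact add_left_cancel hcomm
  have hsm : φ ⬝ᵥ (((R u : SLZ n) : Matrix (Fin n) (Fin n) ℤ) *ᵥ e) = 0 := by
    have h2 := congrArg (fun M => M *ᵥ e) hcomm2
    simp only [← mulVec_mulVec, vecMulVec_mulVec, h0] at h2
    have h3 : (φ ⬝ᵥ (((R u : SLZ n) : Matrix (Fin n) (Fin n) ℤ) *ᵥ e)) • e = 0 := by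
      have h4 : (0 : Fin n → ℤ) = MulOpposite.op
          (φ ⬝ᵥ (((R u : SLZ n) : Matrix (Fin n) (Fin n) ℤ) *ᵥ e)) • e := by
        rw [← h2]
        ext i
        simp
      ext i
      have h5 := congrFun h4 i
      simp only [Pi.zero_apply, Pi.smul_apply, MulOpposite.smul_eq_mul_unop,
        MulOpposite.unop_op] at h5
      simp only [Pi.smul_apply, smul_eq_mul, Pi.zero_apply]
      rw [mul_comm]
      exact h5.symm
    rcases smul_eq_zero.1 h3 with h5 | h5
    · exact h5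
    · exact absurd h5 he
  have hfin := (Pool.Agent.H48SL.final_coef (ι := Fin n) (by rw [Fintype.card_fin]; exact hn)
    R.range e φ (R t) (R u) ⟨t, rfl⟩ ⟨u, rfl⟩ hz1 hze (by rw [hsm]; norm_num)
    (Or.inr (by
      intro k hk m h
      apply hpow k (by omega) m
      apply hR
      rw [map_pow, map_zpow]
      exact h))).2
  have hdens : Pool.Agent.H48SL.ProfDense R.range := by
    apply hLPD n hn
    intro m hm γ
    obtain ⟨l, hl⟩ := hdense m hm γ
    exact ⟨R l, ⟨l, rfl⟩, hl⟩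
  have htop := hfin hdens
  exact ⟨MulEquiv.ofBijective R ⟨hR, MonoidHom.range_eq_top.1 htop⟩⟩

end Pool.Agent.PR
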