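import Pool.Agent.helper48.PR.SpecT

/-!
# pr:TB, an element of rank one from a reducible cubic
-/

set_option autoImplicit false

namespace Pool.Agent.PR

open Matrix Polynomial

set_option linter.unusedSimpArgs false

theorem TB_natDegree (t t' : ℤ) : (cub t t').natDegree = 3 := by
  unfold cub
  compute_degree!

theorem TB_monic (t t' : ℤ) : (cub t t').Monic := by
  unfold cub
  monicity!

/-- An integral root of a reducible cubic. -/
theorem TB_root (t t' : ℤ) (h : ¬ Irreducible ((cub t t').map (Int.castRingHom ℚ))) :
    t' = t ∨ t' = -t - 2 := by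
  have h1 : ¬ Irreducible (cub t t') := fun h' =>
    h ((Polynomial.Monic.irreducible_iff_irreducible_map_fraction_map (K := ℚ)
      (TB_monic t t')).1 h')
  rw [(TB_monic t t').irreducible_iff_roots_eq_zero_of_degree_le_three
    (by rw [TB_natDegree]; norm_num) (by rw [TB_natDegree])] at h1
  obtain ⟨x, hx⟩ := Multiset.exists_mem_of_ne_zero h1
  have hx1 := (Polynomial.mem_roots'.mp hx).2
  have hx2 : x ^ 3 - t * x ^ 2 + t' * x - 1 = 0 := by
    have h2 : (cub t t').eval x = 0 := hx1
    unfold cub at h2
    simpa using h2
  have h3 : x = 1 ∨ x = -1 := Int.isUnit_iff.mp (isUnit_of_dvd_one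
    ⟨x ^ 2 - t * x + t', by linear_combination -hx2⟩)
  rcases h3 with h3 | h3
  · subst h3
    left
    linarith
  · subst h3
    right
    linarith

theorem TB_rank0 {F : Type} [Field F] (N : Matrix (Fin 3) (Fin 3) F) (h : N.rank = 0) :
    N = 0 := by
  have h1 : LinearMap.range N.mulVecLin = ⊥ := Submodule.finrank_eq_zero.1 h
  ext i j
  have h2 : N.mulVecLin (Pi.single j 1) ∈ LinearMap.range N.mulVecLin := ⟨_, rfl⟩
  rw [h1, Submodule.mem_bot, mulVecLin_apply, mulVec_single_one] at h2
  exact congrFun h2 i

/-- A simple eigenvalue gives a matrix of rank one. -/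
theorem TB_simple {F : Type} [Field F] (M : Matrix (Fin 3) (Fin 3) F) (ε : F) (g : F[X])
    (h : M.charpoly = (X - C ε) * g) (hg : g.eval ε ≠ 0) : (aeval M g).rank = 1 := by
  have hg0 : g ≠ 0 := fun h0 => hg (by rw [h0, eval_zero])
  have hch : (toLin' M).charpoly = (X - C ε) * g := by
    rw [Matrix.charpoly_toLin', h]
  have hroot : (toLin' M).charpoly.IsRoot ε := by
    rw [hch, Polynomial.IsRoot, eval_mul, eval_sub, eval_X, eval_C, sub_self, zero_mul]
  have hmul : (toLin' M).charpoly.rootMultiplicity ε = 1 := by
    rw [hch, rootMultiplicity_mul (mul_ne_zero (X_sub_C_ne_zero ε) hg0),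
      rootMultiplicity_X_sub_C_self, rootMultiplicity_eq_zero hg]
  have hal : ∀ v : Fin 3 → F, (aeval M g) *ᵥ v = aeval (toLin' M) g v := by
    intro v
    have h1 : toLin' (aeval M g) = aeval (toLin' M) g := by
      have h2 := Polynomial.aeval_algHom_apply (Matrix.toLinAlgEquiv' (R := F) (n := Fin 3)) M g
      exact h2.symm
    rw [← h1, toLin'_apply]
  have hle : (aeval M g).rank ≤ 1 := by
    have h1 : LinearMap.range (aeval M g).mulVecLin ≤ Module.End.eigenspace (toLin' M) ε := by
      rintro _ ⟨v, rfl⟩
      rw [Module.End.mem_eigenspace_iff, mulVecLin_apply, toLin'_apply]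
      have h2 : (M - algebraMap F _ ε) * aeval M g = 0 := by
        have h3 := Matrix.aeval_self_charpoly M
        rw [h, map_mul, map_sub, aeval_X, aeval_C] at h3
        exact h3
      have h4 : ((M - algebraMap F _ ε) * aeval M g) *ᵥ v = 0 := by
        rw [h2, zero_mulVec]
      rw [← mulVec_mulVec, sub_mulVec, sub_eq_zero] at h4
      rw [h4, Algebra.algebraMap_eq_smul_one, smul_mulVec, one_mulVec]
    have h5 := Submodule.finrank_mono h1
    have h6 := LinearMap.finrank_eigenspace_le (toLin' M) ε
    rw [hmul] at h6
    exact h5.trans h6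
  have hne : (aeval M g).rank ≠ 0 := by
    intro h0
    replace h0 := TB_rank0 _ h0
    have h1 : Module.End.HasEigenvalue (toLin' M) ε :=
      (Module.End.hasEigenvalue_iff_isRoot_charpoly _ _).2 hroot
    obtain ⟨v, hv⟩ := h1.exists_hasEigenvector
    have h2 := Module.End.aeval_apply_of_hasEigenvector (p := g) hv
    rw [← hal, h0, zero_mulVec] at h2
    exact smul_ne_zero hg hv.2 h2.symm
  omega

/-- A nonzero matrix of square zero has rank one. -/
theorem TB_nil {F : Type} [Field F] (N : Matrix (Fin 3) (Fin 3) F) (h0 : N ≠ 0)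
    (h : N * N = 0) : N.rank = 1 := by
  have h1 := Matrix.rank_add_rank_le_card_of_mul_eq_zero h
  have h2 : N.rank ≠ 0 := fun h3 => h0 (TB_rank0 N h3)
  rw [Fintype.card_fin] at h1
  omega

/-- The rational span of the powers contains the integral polynomials. -/
theorem TB_mem {F : Type} [Field F] [CharZero F] (M : Matrix (Fin 3) (Fin 3) F) (g : ℤ[X]) :
    aeval M (g.map (Int.castRingHom F)) ∈
      Submodule.span ℚ (Set.range fun k : ℕ => M ^ k) := by
  induction g using Polynomial.induction_on' with
  | add p q hp hq =>
    rw [Polynomial.map_add, map_add]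
    exact Submodule.add_mem _ hp hq
  | monomial n a =>
    have h1 : aeval M ((monomial n a : ℤ[X]).map (Int.castRingHom F)) = a • M ^ n := by
      rw [Polynomial.map_monomial, aeval_monomial, Algebra.algebraMap_eq_smul_one, smul_mul_assoc,
        one_mul, eq_intCast, Int.cast_smul_eq_zsmul]
    rw [h1]
    exact zsmul_mem (Submodule.subset_span (Set.mem_range_self n)) a

theorem TB : TB_stmt := by
  intro F _ _ M t t' hM hred hM1
  by_cases htt : t' = t
  · subst htt
    by_cases ht3 : t' = 3
    · subst ht3
      have h1 : M.charpoly = (X - C 1) ^ 3 := by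
        rw [hM]
        simp only [cub, Polynomial.map_sub, Polynomial.map_add, Polynomial.map_mul,
        Polynomial.map_pow, Polynomial.map_X, Polynomial.map_one, Polynomial.map_C, eq_intCast,
        Polynomial.map_intCast, Polynomial.map_neg, map_one, Polynomial.map_ofNat]
        ring
      have h2 : (M - 1) ^ 3 = 0 := by
        have h3 := Matrix.aeval_self_charpoly M
        rw [h1, map_pow, map_sub, aeval_X, aeval_C, map_one] at h3
        exact h3
      have h4 : M - 1 = aeval M ((X - 1 : ℤ[X]).map (Int.castRingHom F)) := by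
        simp
      by_cases h5 : (M - 1) * (M - 1) = 0
      · refine ⟨M - 1, ?_, TB_nil _ (fun h => hM1 (sub_eq_zero.1 h)) h5⟩
        rw [h4]
        exact TB_mem M _
      · refine ⟨(M - 1) * (M - 1), ?_, TB_nil _ h5 ?_⟩
        · rw [h4, ← map_mul, ← Polynomial.map_mul]
          exact TB_mem M _
        · calc (M - 1) * (M - 1) * ((M - 1) * (M - 1)) = (M - 1) ^ 3 * (M - 1) := by noncomm_ring
            _ = 0 := by rw [h2, zero_mul]
    · refine ⟨aeval M ((X ^ 2 + C (1 - t') * X + 1 : ℤ[X]).map (Int.castRingHom F)),
        TB_mem M _, TB_simple M 1 _ ?_ ?_⟩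
      · rw [hM]
        simp only [cub, Polynomial.map_sub, Polynomial.map_add, Polynomial.map_mul,
        Polynomial.map_pow, Polynomial.map_X, Polynomial.map_one, Polynomial.map_C, eq_intCast,
        Polynomial.map_intCast, Polynomial.map_neg, map_one, map_sub]
        ring
      · have h1 : ((3 - t' : ℤ) : F) ≠ 0 := by
          intro h
          have h2 : (3 - t' : ℤ) = 0 := by exact_mod_cast h
          omega
        intro h
        apply h1
        simp only [Polynomial.map_sub, Polynomial.map_add, Polynomial.map_mul,
        Polynomial.map_pow, Polynomial.map_X, Polynomial.map_one, Polynomial.map_C, eq_intCast,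
        Polynomial.map_intCast, Polynomial.map_neg, map_one, map_sub, eval_add, eval_mul, eval_pow, eval_X, eval_one,
          eval_sub, eval_C, eval_intCast] at h
        push_cast
        linear_combination h
  · have ht' : t' = -t - 2 := (TB_root t t' hred).resolve_left htt
    refine ⟨aeval M ((X ^ 2 - C (t + 1) * X - 1 : ℤ[X]).map (Int.castRingHom F)),
      TB_mem M _, TB_simple M (-1) _ ?_ ?_⟩
    · rw [hM, ht']
      simp only [cub, Polynomial.map_sub, Polynomial.map_add, Polynomial.map_mul,
        Polynomial.map_pow, Polynomial.map_X, Polynomial.map_one, Polynomial.map_C, eq_intCast,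
        Polynomial.map_intCast, Polynomial.map_neg, map_one, map_sub, map_neg, map_add, Polynomial.map_ofNat]
      ring
    · have h1 : ((t + 1 : ℤ) : F) ≠ 0 := by
        intro h
        have h2 : (t + 1 : ℤ) = 0 := by exact_mod_cast h
        omega
      intro h
      apply h1
      simp only [Polynomial.map_sub, Polynomial.map_add, Polynomial.map_mul,
        Polynomial.map_pow, Polynomial.map_X, Polynomial.map_one, Polynomial.map_C, eq_intCast,
        Polynomial.map_intCast, Polynomial.map_neg, map_one, map_add, eval_add, eval_mul, eval_pow, eval_X, eval_one,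
        eval_sub, eval_C, eval_intCast] at h
      push_cast
      linear_combination h

end Pool.Agent.PR
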