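import Pool.Agent.helper48.PR.SpecT
import Pool.Agent.helper48.SLn.Abel
import Pool.Agent.helper84.PR.TB

/-!
# pr:TC, the reducible case
-/

set_option autoImplicit false

namespace Pool.Agent.PR

open Matrix Polynomial

/-- The representation over `ℚ_q`. -/
noncomputable def TC_rho {n q : ℕ} [Fact q.Prime] {Λ : Type} [Group Λ]
    (f : Λ →* GL (Fin n) ℤ_[q]) : Λ →* Matrix (Fin n) (Fin n) ℚ_[q] where
  toFun l := qM (f l)
  map_one' := by
    unfold qM
    rw [map_one, Units.val_one]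
    exact Matrix.map_one _ (map_zero _) (map_one _)
  map_mul' a b := by
    unfold qM
    rw [map_mul, Units.val_mul, Matrix.map_mul]

theorem TC_trace {q : ℕ} [Fact q.Prime] (A : GL (Fin 3) ℤ_[q]) (t : ℤ)
    (h : (A : Matrix (Fin 3) (Fin 3) ℤ_[q]).trace = (t : ℤ_[q])) : (qM A).trace = (t : ℚ_[q]) := by
  unfold qM
  have h1 : ((A : Matrix (Fin 3) (Fin 3) ℤ_[q]).map (PadicInt.Coe.ringHom (p := q))).trace =
      PadicInt.Coe.ringHom (p := q) (A : Matrix (Fin 3) (Fin 3) ℤ_[q]).trace := by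
    rw [Matrix.trace, Matrix.trace, map_sum]
    rfl
  rw [h1, h, map_intCast]

theorem TC_det {q : ℕ} [Fact q.Prime] (A : GL (Fin 3) ℤ_[q])
    (h : (A : Matrix (Fin 3) (Fin 3) ℤ_[q]).det = 1) : (qM A).det = 1 := by
  unfold qM
  have h1 := RingHom.map_det (PadicInt.Coe.ringHom (p := q)) (A : Matrix (Fin 3) (Fin 3) ℤ_[q])
  rw [h, map_one] at h1
  exact h1.symm

theorem TC (hTA : TA_stmt) (hTB : TB_stmt) (hLINT : LINT_stmt) (hLDET : LDET_stmt)
    (hLFAI : LFAI_stmt) (hLEMB : LEMB_stmt) (hLPD : LPD_stmt) : TC_stmt := by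
  intro Λ _ hFG hQ hRF f hf p w u hwu hw hu
  obtain ⟨t, ht⟩ := hLINT 3 le_rfl Λ hFG hQ f hf p w
  obtain ⟨t', ht'⟩ := hLINT 3 le_rfl Λ hFG hQ f hf p w⁻¹
  have hinj := hLFAI 3 le_rfl Λ hFG hQ hRF f hf p
  have hmul : qM (f p w) * qM (f p w⁻¹) = 1 := by
    have h1 := (TC_rho (f p)).map_mul w w⁻¹
    rw [mul_inv_cancel, map_one] at h1
    exact h1.symm
  have hch := hTA ℚ_[(p : ℕ)] (qM (f p w)) (qM (f p w⁻¹)) t t' hmul
    (TC_det _ (hLDET 3 le_rfl Λ hQ f hf p w)) (TC_trace _ t ht) (TC_trace _ t' ht')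
  by_cases hirr : Irreducible ((cub t t').map (Int.castRingHom ℚ))
  · exact Or.inr ⟨t, t', hch, hirr⟩
  left
  have hqinj : Function.Injective (qM (n := 3) (q := (p : ℕ))) := by
    intro A B hAB
    apply Units.ext
    ext i j
    have h1 := congrFun (congrFun hAB i) j
    exact Subtype.ext h1
  have hM1 : qM (f p w) ≠ 1 := by
    intro h
    apply hw 1 one_pos
    rw [pow_one]
    apply hinj
    apply hqinj
    rw [h]
    exact ((TC_rho (f p)).map_one).symm
  obtain ⟨A, hA, hrk⟩ := hTB ℚ_[(p : ℕ)] (qM (f p w)) t t' hch hirr hM1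
  have hA' : A ∈ Submodule.span ℚ (Set.range fun l => qM (f p l)) := by
    refine Submodule.span_mono ?_ hA
    rintro _ ⟨k, rfl⟩
    exact ⟨w ^ k, (TC_rho (f p)).map_pow w k⟩
  obtain ⟨R, x, y, hR, hxy, hyx, hρ, hdense⟩ := hLEMB 3 le_rfl Λ hFG hQ hRF f hf p A hA' hrk
  have hchR : ((R w : SLZ 3) : Matrix (Fin 3) (Fin 3) ℤ).charpoly = cub t t' := by
    have h1 : (stdM ℚ_[(p : ℕ)] (R w)).charpoly = (qM (f p w)).charpoly := by
      rw [hρ w, Matrix.charpoly_mul_comm, ← mul_assoc, hyx, one_mul]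
    rw [hch] at h1
    unfold stdM at h1
    rw [Matrix.charpoly_map] at h1
    exact Polynomial.map_injective _ (RingHom.injective_int (Int.castRingHom ℚ_[(p : ℕ)])) h1
  have hredR : ¬ Irreducible ((R w : SLZ 3) : Matrix (Fin 3) (Fin 3) ℤ).charpoly := by
    rw [hchR]
    intro h
    exact hirr ((Polynomial.Monic.irreducible_iff_irreducible_map_fraction_map (K := ℚ)
      (TB_monic t t')).1 h)
  have hdens : Pool.Agent.H48SL.ProfDense R.range := by
    apply hLPD 3 le_rfl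
    intro m hm γ
    obtain ⟨l, hl⟩ := hdense m hm γ
    exact ⟨R l, ⟨l, rfl⟩, hl⟩
  have htop := (Pool.Agent.H48SL.both (fun hD => Pool.Agent.H48SL.abel_three (H := R.range) hD
    (w := R w) (u := R u) ⟨w, rfl⟩ ⟨u, rfl⟩
    (fun k hk h => hw k (by omega) (hR (by rw [map_pow, map_one]; exact h))) hredR
    (by rw [← map_mul, ← map_mul, hwu])
    (fun k hk m h => hu k (by omega) m (hR (by rw [map_pow, map_zpow]; exact h))))).2 hdens
  exact ⟨MulEquiv.ofBijective R ⟨hR, MonoidHom.range_eq_top.1 htop⟩⟩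

end Pool.Agent.PR
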